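import Mathlib
import Pool.Agent.U578.MultMain

set_option autoImplicit false

namespace Pool.Agent.Results.MP_e29efe_nt.SmythMult

open Polynomial Finset

/-- Condition (A): some entry exceeds in absolute value the sum of the others. -/
def CondA {d : ℕ} (b : Fin d → ℤ) : Prop :=
  ∃ i, ∑ j ∈ univ.erase i, |b j| < |b i|

/-- Condition (B): some prime divides all entries but one, and not the remaining one. -/
def CondB {d : ℕ} (b : Fin d → ℤ) : Prop :=
  ∃ i, ∃ p : ℕ, p.Prime ∧ ¬ (p : ℤ) ∣ b i ∧ ∀ j, j ≠ i → (p : ℤ) ∣ b j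

/-- A solution of the relation with exponent vector `b`: a nonzero algebraic number `α` with
conjugates `c 0 = α, c 1, …` such that the product of the `c i ^ b i` is one. -/
def IsSolution {d : ℕ} [NeZero d] (b : Fin d → ℤ) (α : ℂ) (c : Fin d → ℂ) : Prop :=
  α ≠ 0 ∧ IsAlgebraic ℚ α ∧ c 0 = α ∧ (∀ i, aeval (c i) (minpoly ℚ α) = 0) ∧
    ∏ i, c i ^ b i = 1

/-- For a primitive integer vector `b` and `g ≥ 1`, the relation with exponent vector `g b` has a
solution in which `α` is not a root of unity if and only if `b` satisfies neither (A) nor (B). -/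
theorem result (d : ℕ) [NeZero d] (b : Fin d → ℤ) (hb : univ.gcd b = 1) (g : ℕ) (hg : 0 < g) :
    (∃ (α : ℂ) (c : Fin d → ℂ), IsSolution (fun i => (g : ℤ) * b i) α c ∧
      ∀ m : ℕ, 0 < m → α ^ m ≠ 1) ↔ ¬ CondA b ∧ ¬ CondB b := by
  classical
  constructor
  · rintro ⟨α, c, ⟨h0, halg, hc0, hc, hrel⟩, hroot⟩
    obtain ⟨c', hc'0, hc'm, hc'rel, hc'r⟩ :=
      @U578.Smyth.mult_transfer (AlgebraicClosure ℚ) _ _ _ U578.Smyth.algQ d
        (fun i => (g : ℤ) * b i) α c h0 halg hc hrel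
    have hgZ : (0 : ℤ) < g := by exact_mod_cast hg
    constructor
    · rintro ⟨i, hi⟩
      obtain ⟨N, hN, hpow⟩ := @U578.Smyth.mult_necA (AlgebraicClosure ℚ) _ _ _ U578.Smyth.algQ d
        (fun i => (g : ℤ) * b i) c' hc'0 hc'm hc'rel i (by
          simp only [abs_mul, ← Finset.mul_sum]
          exact mul_lt_mul_of_pos_left hi (abs_pos.mpr hgZ.ne'))
      obtain ⟨m, hm, hm1⟩ := hc'r i N hN hpow
      exact hroot m hm hm1
    · rintro ⟨i, p, hp, hpi, hpj⟩
      obtain ⟨e, g', hpg', hge⟩ := Nat.exists_eq_pow_mul_and_not_dvd hg.ne' p hp.ne_one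
      have hpZ : Prime (p : ℤ) := Nat.prime_iff_prime_int.mp hp
      obtain ⟨N, hN, hpow⟩ := @U578.Smyth.mult_necB (AlgebraicClosure ℚ) _ _ _ U578.Smyth.algQ d
        (fun i => (g : ℤ) * b i) c' hc'0 hc'm hc'rel i p (e + 1) hp (by
          intro hdvd
          have h1 : (p : ℤ) ^ e * p ∣ (p : ℤ) ^ e * ((g' : ℤ) * b i) := by
            have h2 : (g : ℤ) = (p : ℤ) ^ e * g' := by exact_mod_cast hge
            rw [← pow_succ, ← mul_assoc, ← h2]
            exact hdvd
          have h3 := (mul_dvd_mul_iff_left (pow_ne_zero e hpZ.ne_zero)).mp h1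
          rcases hpZ.dvd_or_dvd h3 with h4 | h4
          · exact hpg' (by exact_mod_cast h4)
          · exact hpi h4) (by
          intro j hj
          have h2 : (g : ℤ) = (p : ℤ) ^ e * g' := by exact_mod_cast hge
          obtain ⟨q, hq⟩ := hpj j hj
          refine ⟨g' * q, ?_⟩
          rw [h2, hq, pow_succ]
          ring)
      obtain ⟨m, hm, hm1⟩ := hc'r i N hN hpow
      exact hroot m hm hm1
  · rintro ⟨hA, hB⟩
    have hA' : ∀ i, |b i| ≤ ∑ j ∈ univ.erase i, |b j| := by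
      intro i
      by_contra hcon
      exact hA ⟨i, not_le.mp hcon⟩
    have hB' : ∀ i, ∀ p : ℕ, p.Prime → (∀ j, j ≠ i → (p : ℤ) ∣ b j) → (p : ℤ) ∣ b i := by
      intro i p hp h
      by_contra hcon
      exact hB ⟨i, p, hp, hcon, h⟩
    obtain ⟨c, hc0, halg, hm, hrel, hroot⟩ :=
      U578.Smyth.mult_suff (Nat.pos_of_ne_zero (NeZero.ne d)) b hb hA' hB'
    refine ⟨c 0, c, ⟨hc0 0, halg 0, rfl, ?_, ?_⟩, hroot 0⟩
    · intro i
      rw [hm 0 i]
      exact minpoly.aeval ℚ _
    · have h1 : ∀ i, c i ^ ((g : ℤ) * b i) = (c i ^ b i) ^ g := by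
        intro i
        rw [mul_comm, zpow_mul, zpow_natCast]
      simp only [h1]
      rw [Finset.prod_pow, hrel, one_pow]

end Pool.Agent.Results.MP_e29efe_nt.SmythMult
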